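import Pool.Agent.Helper30.TwoTree.Turan

set_option autoImplicit false
open Classical Finset

namespace Pool.Agent.Helper30.TwoTree

set_option linter.unusedSectionVars false

variable {X : Type} [Fintype X]

/-- restriction of a graph to a set of vertices, keeping the vertex type -/
def restr (Γ : SimpleGraph X) (S : Finset X) : SimpleGraph X where
  Adj a b := Γ.Adj a b ∧ a ∈ S ∧ b ∈ S
  symm := ⟨fun _ _ h => ⟨h.1.symm, h.2.2, h.2.1⟩⟩
  loopless := ⟨fun a h => Γ.loopless.irrefl a h.1⟩

theorem restr_le (Γ : SimpleGraph X) (S : Finset X) : restr Γ S ≤ Γ := fun _ _ h => h.1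

/-- the neighbours of `u` in `S` -/
noncomputable def nb (Γ : SimpleGraph X) (S : Finset X) (u : X) : Finset X :=
  S.filter (fun w => Γ.Adj u w)

theorem sum_tri_le (Γ : SimpleGraph X) (S : Finset X) :
    ∑ u ∈ S, ∑ w ∈ nb Γ S u, ((nb Γ S u).filter (fun z => Γ.Adj w z)).card ≤
      (tri (restr Γ S)).card := by
  have h1 : ∑ u ∈ S, ∑ w ∈ nb Γ S u, ((nb Γ S u).filter (fun z => Γ.Adj w z)).card =
      (S.sigma (fun u => (nb Γ S u).sigma
        (fun w => (nb Γ S u).filter (fun z => Γ.Adj w z)))).card := by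
    rw [Finset.card_sigma]
    refine Finset.sum_congr rfl fun u _ => ?_
    rw [Finset.card_sigma]
  rw [h1]
  refine Finset.card_le_card_of_injOn (fun p => (p.1, p.2.1, p.2.2)) ?_ ?_
  · rintro ⟨u, w, z⟩ hp
    simp only [nb, coe_sigma, Set.mem_sigma_iff, mem_coe, mem_filter] at hp
    simp only [tri, restr, mem_coe, mem_filter, mem_univ, true_and]
    tauto
  · rintro ⟨u, w, z⟩ _ ⟨u', w', z'⟩ _ h
    simp only [Prod.mk.injEq] at h
    obtain ⟨rfl, rfl, rfl⟩ := h
    rfl

theorem prs_le_sum (Γ : SimpleGraph X) (S : Finset X) :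
    (prs (restr Γ S)).card ≤ ∑ u ∈ S, (nb Γ S u).card := by
  rw [← Finset.card_sigma]
  refine Finset.card_le_card_of_injOn (fun p => ⟨p.1, p.2⟩) ?_ ?_
  · rintro ⟨u, w⟩ hp
    simp only [prs, restr, mem_coe, mem_filter, mem_univ, true_and] at hp
    simp only [nb, coe_sigma, Set.mem_sigma_iff, mem_coe, mem_filter]
    tauto
  · rintro ⟨u, w⟩ _ ⟨u', w'⟩ _ h
    simp only [Sigma.mk.injEq, heq_eq_eq] at h
    rw [h.1, h.2]

/-- The local sparsity hypothesis. -/
def Sparse (n : ℕ) (Γ : SimpleGraph X) : Prop :=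
  ∀ Γ' : SimpleGraph X, Γ' ≤ Γ → (∃ x y, Γ'.Adj x y) →
      ∃ x y, Γ'.Adj x y ∧ (univ.filter (fun z => Γ'.Adj x z ∧ Γ'.Adj y z)).card ≤ n

/-- sum of squares of degrees -/
theorem sum_sq_le (n : ℕ) (Γ : SimpleGraph X) (hΓ : Sparse n Γ) (S : Finset X) (i : ℕ)
    (hi : ∀ I ⊆ S, (∀ a ∈ I, ∀ b ∈ I, ¬ Γ.Adj a b) → I.card < i) :
    ∑ u ∈ S, ((nb Γ S u).card : ℝ) ^ 2 ≤ ((3 * n + 1 : ℝ) * i) ^ 2 * S.card := by
  set Q : ℝ := ∑ u ∈ S, ((nb Γ S u).card : ℝ) ^ 2 with hQ
  set P : ℝ := ∑ u ∈ S, ((nb Γ S u).card : ℝ) with hP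
  have hP0 : 0 ≤ P := Finset.sum_nonneg fun _ _ => by positivity
  have h1 : Q ≤ i * ((3 * n + 1) * P) := by
    have h2 : Q ≤ ∑ u ∈ S, (i : ℝ) * ((∑ w ∈ nb Γ S u,
        (((nb Γ S u).filter (fun z => Γ.Adj w z)).card : ℝ)) + (nb Γ S u).card) := by
      refine Finset.sum_le_sum fun u _ => ?_
      exact turan_bound Γ (nb Γ S u) i fun I hI hI' => hi I (hI.trans (Finset.filter_subset _ _)) hI'
    refine h2.trans ?_
    rw [← Finset.mul_sum, Finset.sum_add_distrib, ← hP]
    apply mul_le_mul_of_nonneg_left _ (by positivity)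
    have h3 := tri_le n _ (restr Γ S) le_rfl (fun Γ' h => hΓ Γ' (h.trans (restr_le Γ S)))
    have h4 := (sum_tri_le Γ S).trans (h3.trans (Nat.mul_le_mul_left _ (prs_le_sum Γ S)))
    have h5 : (∑ u ∈ S, ∑ w ∈ nb Γ S u,
        (((nb Γ S u).filter (fun z => Γ.Adj w z)).card : ℝ)) ≤ 3 * n * P := by
      rw [hP]; exact_mod_cast h4
    linarith
  have h6 : P ^ 2 ≤ S.card * Q := by
    have := Finset.sum_sq_le_sum_mul_sum_of_sq_le_mul S (r := fun u => ((nb Γ S u).card : ℝ))
      (f := fun _ => (1 : ℝ)) (g := fun u => ((nb Γ S u).card : ℝ) ^ 2)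
      (fun u _ => by positivity) (fun u _ => by positivity) (fun u _ => by rw [one_mul])
    simpa using this
  have hQ0 : 0 ≤ Q := Finset.sum_nonneg fun _ _ => by positivity
  rcases hQ0.eq_or_lt with h0 | h0
  · rw [← h0]; positivity
  · have h7 : Q ^ 2 ≤ (((3 * n + 1 : ℝ) * i) ^ 2 * S.card) * Q := by
      calc Q ^ 2 ≤ (i * ((3 * n + 1) * P)) ^ 2 := by
            apply pow_le_pow_left₀ hQ0 h1
        _ = ((3 * n + 1 : ℝ) * i) ^ 2 * P ^ 2 := by ring
        _ ≤ ((3 * n + 1 : ℝ) * i) ^ 2 * (S.card * Q) := by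
            apply mul_le_mul_of_nonneg_left h6 (by positivity)
        _ = _ := by ring
    rw [sq] at h7
    exact le_of_mul_le_mul_right h7 h0

/-- few vertices of large degree -/
theorem few_large (n : ℕ) (Γ : SimpleGraph X) (hΓ : Sparse n Γ) (S : Finset X) (i : ℕ)
    (hi : ∀ I ⊆ S, (∀ a ∈ I, ∀ b ∈ I, ¬ Γ.Adj a b) → I.card < i) (T : ℝ) (hT : 0 ≤ T) :
    ((S.filter (fun u => T < (nb Γ S u).card)).card : ℝ) * T ^ 2 ≤
      ((3 * n + 1 : ℝ) * i) ^ 2 * S.card := by
  refine le_trans ?_ (sum_sq_le n Γ hΓ S i hi)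
  calc ((S.filter (fun u => T < (nb Γ S u).card)).card : ℝ) * T ^ 2
      = ∑ u ∈ S.filter (fun u => T < (nb Γ S u).card), T ^ 2 := by
        rw [Finset.sum_const, nsmul_eq_mul]
    _ ≤ ∑ u ∈ S.filter (fun u => T < (nb Γ S u).card), ((nb Γ S u).card : ℝ) ^ 2 := by
        refine Finset.sum_le_sum fun u hu => ?_
        exact pow_le_pow_left₀ hT (Finset.mem_filter.1 hu).2.le 2
    _ ≤ ∑ u ∈ S, ((nb Γ S u).card : ℝ) ^ 2 :=
        Finset.sum_le_sum_of_subset_of_nonneg (Finset.filter_subset _ _) fun _ _ _ => by positivity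

/-- A partial embedding of `H` into the complement of `Γ` inside `S`, defined on the vertices
of rank less than `t`. -/
def Good {W : Type} (H : SimpleGraph W) (r : W → ℕ) (Γ : SimpleGraph X) (S : Finset X) (t : ℕ)
    (g : W → X) : Prop :=
  (∀ a, r a < t → g a ∈ S) ∧ (∀ a b, r a < t → r b < t → g a = g b → a = b) ∧
    ∀ a b, r a < t → r b < t → H.Adj a b → ¬ Γ.Adj (g a) (g b)

/-- greedy extension -/
theorem extend {W : Type} [Fintype W] (H : SimpleGraph W) (r : W → ℕ)
    (hr : Function.Injective r) (Γ : SimpleGraph X) (S : Finset X) (D : ℕ) (T : ℝ) (hT0 : 0 ≤ T)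
    (hdeg : ∀ u ∈ S, ((nb Γ S u).card : ℝ) ≤ T)
    (hbig : (Fintype.card W : ℝ) + D * T < S.card) (s : ℕ)
    (hD : ∀ w, s ≤ r w → (univ.filter (fun a => H.Adj w a)).card ≤ D)
    (k : ℕ) (g : W → X) (hg : Good H r Γ S s g) : ∃ g', Good H r Γ S (s + k) g' := by
  induction k with
  | zero => exact ⟨g, hg⟩
  | succ k ih =>
    obtain ⟨f, f1, f2, f3⟩ := ih
    by_cases hv : ∃ v, r v = s + k
    · obtain ⟨v, hv⟩ := hv
      set U : Finset X := univ.image f with hU
      set Bk : Finset W := univ.filter (fun a => H.Adj v a ∧ r a < s + k) with hBk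
      have hBkc : Bk.card ≤ D := by
        refine le_trans (Finset.card_le_card ?_) (hD v (by omega))
        intro a ha
        simp only [hBk, mem_filter, mem_univ, true_and] at ha ⊢
        exact ha.1
      obtain ⟨z, hzS, hzn⟩ : ∃ z ∈ S, z ∉ U ∪ Bk.biUnion (fun a => nb Γ S (f a)) := by
        by_contra hcon
        push Not at hcon
        have h1 := Finset.card_le_card (show S ⊆ _ from hcon)
        have h2 : ((U ∪ Bk.biUnion (fun a => nb Γ S (f a))).card : ℝ) ≤ Fintype.card W + D * T := by
          have h3 : (U ∪ Bk.biUnion (fun a => nb Γ S (f a))).card ≤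
              U.card + ∑ a ∈ Bk, (nb Γ S (f a)).card :=
            (Finset.card_union_le _ _).trans (Nat.add_le_add_left Finset.card_biUnion_le _)
          have h4 : ((U ∪ Bk.biUnion (fun a => nb Γ S (f a))).card : ℝ) ≤
              U.card + ∑ a ∈ Bk, ((nb Γ S (f a)).card : ℝ) := by exact_mod_cast h3
          refine h4.trans (add_le_add ?_ ?_)
          · have : U.card ≤ Fintype.card W := by
              rw [← Finset.card_univ]; exact Finset.card_image_le
            exact_mod_cast this
          · calc ∑ a ∈ Bk, ((nb Γ S (f a)).card : ℝ) ≤ ∑ a ∈ Bk, T := by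
                  refine Finset.sum_le_sum fun a ha => hdeg _ (f1 a ?_)
                  simp only [hBk, mem_filter, mem_univ, true_and] at ha
                  exact ha.2
              _ = Bk.card * T := by rw [Finset.sum_const, nsmul_eq_mul]
              _ ≤ D * T := by
                  apply mul_le_mul_of_nonneg_right _ hT0
                  exact_mod_cast hBkc
        have h5 : (S.card : ℝ) ≤ ((U ∪ Bk.biUnion (fun a => nb Γ S (f a))).card : ℝ) := by
          exact_mod_cast h1
        linarith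
      rw [Finset.mem_union, not_or] at hzn
      obtain ⟨hzU, hzB⟩ := hzn
      have hzf : ∀ a, f a ≠ z := fun a h => hzU (Finset.mem_image.2 ⟨a, Finset.mem_univ _, h⟩)
      have hzadj : ∀ a, r a < s + k → H.Adj v a → ¬ Γ.Adj (f a) z := by
        intro a ha hva hadj
        apply hzB
        rw [Finset.mem_biUnion]
        refine ⟨a, ?_, ?_⟩
        · simp only [hBk, mem_filter, mem_univ, true_and]; exact ⟨hva, ha⟩
        · simp only [nb, mem_filter]; exact ⟨hzS, hadj⟩
      have hlt : ∀ a, r a < s + (k + 1) → a ≠ v → r a < s + k := by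
        intro a ha hav
        have : r a ≠ s + k := fun h => hav (hr (h.trans hv.symm))
        omega
      refine ⟨Function.update f v z, ?_, ?_, ?_⟩
      · intro a ha
        by_cases hav : a = v
        · rw [hav, Function.update_self]; exact hzS
        · rw [Function.update_of_ne hav]; exact f1 a (hlt a ha hav)
      · intro a b ha hb hab
        by_cases hav : a = v
        · by_cases hbv : b = v
          · rw [hav, hbv]
          · rw [hav, Function.update_self, Function.update_of_ne hbv] at hab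
            exact absurd hab.symm (hzf b)
        · by_cases hbv : b = v
          · rw [hbv, Function.update_self, Function.update_of_ne hav] at hab
            exact absurd hab (hzf a)
          · rw [Function.update_of_ne hav, Function.update_of_ne hbv] at hab
            exact f2 a b (hlt a ha hav) (hlt b hb hbv) hab
      · intro a b ha hb hab
        by_cases hav : a = v
        · have hbv : b ≠ v := by
            intro hbv; rw [hav, hbv] at hab; exact H.loopless.irrefl _ hab
          rw [hav, Function.update_self, Function.update_of_ne hbv]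
          rw [hav] at hab
          exact fun h => hzadj b (hlt b hb hbv) hab h.symm
        · by_cases hbv : b = v
          · rw [hbv, Function.update_self, Function.update_of_ne hav]
            rw [hbv] at hab
            exact hzadj a (hlt a ha hav) hab.symm
          · rw [Function.update_of_ne hav, Function.update_of_ne hbv]
            exact f3 a b (hlt a ha hav) (hlt b hb hbv) hab
    · push Not at hv
      refine ⟨f, ?_, ?_, ?_⟩
      · intro a ha
        have := hv a
        exact f1 a (by omega)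
      · intro a b ha hb
        have := hv a; have := hv b
        exact f2 a b (by omega) (by omega)
      · intro a b ha hb
        have := hv a; have := hv b
        exact f3 a b (by omega) (by omega)

end Pool.Agent.Helper30.TwoTree
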