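import Mathlib

set_option autoImplicit false

namespace Pool.Agent.Helper30.TwoTree

/-- A graph `G` is a *partial 2-tree* (equivalently: it has treewidth at most `2`, equivalently it
has no `K₄` minor) if it is a subgraph of a graph `T` on the same vertices that admits a
construction order in which every new vertex is joined to a clique of at most two older vertices:
there are a graph `T ≥ G` and an injective rank function `r` such that for every vertex `v` the
`T`-neighbours of `v` of smaller rank form a clique with at most two vertices. -/
def IsPartialTwoTree {V : Type} (G : SimpleGraph V) : Prop :=
  ∃ (T : SimpleGraph V) (r : V → ℕ), Function.Injective r ∧ G ≤ T ∧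
    ∀ v : V, Set.encard {w : V | T.Adj v w ∧ r w < r v} ≤ 2 ∧
      T.IsClique {w : V | T.Adj v w ∧ r w < r v}

end Pool.Agent.Helper30.TwoTree
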