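import Mathlib

set_option autoImplicit false
open Classical Finset

namespace Pool.Agent.Helper30.TwoTree

variable {X : Type} [Fintype X]

/-- Embedding lemma -/
theorem embed_step {V : Type} [Fintype V] (T : SimpleGraph V) (r : V → ℕ)
    (hr : Function.Injective r)
    (hT : ∀ v : V, Set.encard {w : V | T.Adj v w ∧ r w < r v} ≤ 2 ∧
      T.IsClique {w : V | T.Adj v w ∧ r w < r v})
    (Γ : SimpleGraph X) (hne : ∃ x y, Γ.Adj x y)
    (hcom : ∀ x y, Γ.Adj x y → Fintype.card V ≤ (univ.filter (fun z => Γ.Adj x z ∧ Γ.Adj y z)).card)
    (t : ℕ) :
    ∃ f : V → X, (∀ a b, r a < t → r b < t → f a = f b → a = b) ∧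
      (∀ a, r a < t → ∃ y, Γ.Adj (f a) y) ∧
      (∀ a b, r a < t → r b < t → T.Adj a b → Γ.Adj (f a) (f b)) := by
  obtain ⟨x0, y0, hxy0⟩ := hne
  -- a non-isolated vertex has more than `card V` neighbours
  have hdeg : ∀ x y, Γ.Adj x y → Fintype.card V < (univ.filter (fun z => Γ.Adj x z)).card := by
    intro x y hxy
    refine lt_of_le_of_lt (hcom x y hxy) (Finset.card_lt_card ?_)
    refine ⟨?_, ?_⟩
    · intro z hz
      simp only [mem_filter, mem_univ, true_and] at hz ⊢
      exact hz.1
    · intro h
      have := @h y (by simpa using hxy)
      simp at this
  induction t with
  | zero =>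
    exact ⟨fun _ => x0, by intro a b ha; omega, by intro a ha; omega, by intro a b ha; omega⟩
  | succ t ih =>
    obtain ⟨f, f1, f2, f3⟩ := ih
    by_cases hv : ∃ v, r v = t
    · obtain ⟨v, hv⟩ := hv
      -- the used vertices
      set U : Finset X := (univ.filter (fun a : V => r a < t)).image f with hU
      have hUcard : U.card < Fintype.card V := by
        refine lt_of_le_of_lt Finset.card_image_le ?_
        rw [← Finset.card_univ]
        refine Finset.card_lt_card ⟨Finset.filter_subset _ _, ?_⟩
        intro h
        have := h (Finset.mem_univ v)
        simp [hv] at this
      -- it suffices to find a good new vertex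
      suffices hz : ∃ z, z ∉ U ∧ (∃ y, Γ.Adj z y) ∧ ∀ a, r a < t → T.Adj v a → Γ.Adj z (f a) by
        obtain ⟨z, hz1, hz2, hz3⟩ := hz
        refine ⟨Function.update f v z, ?_, ?_, ?_⟩
        · intro a b ha hb hab
          by_cases hav : a = v
          · by_cases hbv : b = v
            · rw [hav, hbv]
            · have hb' : r b < t := by
                have : r b ≠ t := fun h => hbv (hr (h.trans hv.symm))
                omega
              rw [hav, Function.update_self, Function.update_of_ne hbv] at hab
              exact absurd (Finset.mem_image.2 ⟨b, by simp [hb'], hab.symm⟩) hz1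
          · have ha' : r a < t := by
              have : r a ≠ t := fun h => hav (hr (h.trans hv.symm))
              omega
            by_cases hbv : b = v
            · rw [hbv, Function.update_self, Function.update_of_ne hav] at hab
              exact absurd (Finset.mem_image.2 ⟨a, by simp [ha'], hab⟩) hz1
            · have hb' : r b < t := by
                have : r b ≠ t := fun h => hbv (hr (h.trans hv.symm))
                omega
              rw [Function.update_of_ne hav, Function.update_of_ne hbv] at hab
              exact f1 a b ha' hb' hab
        · intro a ha
          by_cases hav : a = v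
          · rw [hav, Function.update_self]; exact hz2
          · have ha' : r a < t := by
              have : r a ≠ t := fun h => hav (hr (h.trans hv.symm))
              omega
            rw [Function.update_of_ne hav]; exact f2 a ha'
        · intro a b ha hb hab
          by_cases hav : a = v
          · have hbv : b ≠ v := by rintro rfl; exact T.loopless.irrefl _ (hav ▸ hab)
            have hb' : r b < t := by
              have : r b ≠ t := fun h => hbv (hr (h.trans hv.symm))
              omega
            rw [hav, Function.update_self, Function.update_of_ne hbv]
            exact hz3 b hb' (hav ▸ hab)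
          · have ha' : r a < t := by
              have : r a ≠ t := fun h => hav (hr (h.trans hv.symm))
              omega
            by_cases hbv : b = v
            · rw [hbv, Function.update_self, Function.update_of_ne hav]
              exact (hz3 a ha' (hbv ▸ hab.symm)).symm
            · have hb' : r b < t := by
                have : r b ≠ t := fun h => hbv (hr (h.trans hv.symm))
                omega
              rw [Function.update_of_ne hav, Function.update_of_ne hbv]
              exact f3 a b ha' hb' hab
      -- find the new vertex according to the back neighbours of `v`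
      obtain ⟨hc, hcl⟩ := hT v
      have hback : ∀ a, r a < t → T.Adj v a → a ∈ {w : V | T.Adj v w ∧ r w < r v} := by
        intro a ha hva
        exact ⟨hva, by rw [hv]; exact ha⟩
      by_cases h0 : ∃ a, r a < t ∧ T.Adj v a
      · obtain ⟨a, ha, hva⟩ := h0
        by_cases h1 : ∃ b, b ≠ a ∧ r b < t ∧ T.Adj v b
        · obtain ⟨b, hba, hb, hvb⟩ := h1
          have hab : T.Adj b a := hcl (hback b hb hvb) (hback a ha hva) hba
          have hfab := f3 b a hb ha hab
          have hbig := hcom _ _ hfab
          obtain ⟨z, hz, hzU⟩ : ∃ z ∈ univ.filter (fun z => Γ.Adj (f b) z ∧ Γ.Adj (f a) z), z ∉ U := by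
            by_contra hcon
            push Not at hcon
            have := Finset.card_le_card (show _ ⊆ U from hcon)
            omega
          simp only [mem_filter, mem_univ, true_and] at hz
          refine ⟨z, hzU, ⟨_, hz.1.symm⟩, ?_⟩
          intro c hc' hvc
          by_cases hca : c = a
          · rw [hca]; exact hz.2.symm
          by_cases hcb : c = b
          · rw [hcb]; exact hz.1.symm
          exfalso
          have h3 : ({c, a, b} : Set V) ⊆ {w : V | T.Adj v w ∧ r w < r v} := by
            intro x hx
            simp only [Set.mem_insert_iff, Set.mem_singleton_iff] at hx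
            rcases hx with rfl | rfl | rfl
            · exact hback _ hc' hvc
            · exact hback _ ha hva
            · exact hback _ hb hvb
          have h4 := (Set.encard_le_encard h3).trans hc
          rw [Set.encard_insert_of_notMem (by simp [hca, hcb]), Set.encard_pair (Ne.symm hba)] at h4
          norm_num at h4
        · push Not at h1
          obtain ⟨y, hy⟩ := f2 a ha
          have hbig := hdeg _ _ hy
          obtain ⟨z, hz, hzU⟩ : ∃ z ∈ univ.filter (fun z => Γ.Adj (f a) z), z ∉ U := by
            by_contra hcon
            push Not at hcon
            have := Finset.card_le_card (show _ ⊆ U from hcon)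
            omega
          simp only [mem_filter, mem_univ, true_and] at hz
          refine ⟨z, hzU, ⟨_, hz.symm⟩, ?_⟩
          intro c hc' hvc
          by_cases hca : c = a
          · rw [hca]; exact hz.symm
          · exact absurd hvc (h1 c hca hc')
      · push Not at h0
        have hbig := hdeg _ _ hxy0
        obtain ⟨z, hz, hzU⟩ : ∃ z ∈ univ.filter (fun z => Γ.Adj x0 z), z ∉ U := by
          by_contra hcon
          push Not at hcon
          have := Finset.card_le_card (show _ ⊆ U from hcon)
          omega
        simp only [mem_filter, mem_univ, true_and] at hz
        exact ⟨z, hzU, ⟨_, hz.symm⟩, fun c hc' hvc => absurd hvc (h0 c hc')⟩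
    · push Not at hv
      refine ⟨f, ?_, ?_, ?_⟩
      · intro a b ha hb
        have := hv a; have := hv b
        exact f1 a b (by omega) (by omega)
      · intro a ha
        have := hv a
        exact f2 a (by omega)
      · intro a b ha hb
        have := hv a; have := hv b
        exact f3 a b (by omega) (by omega)

end Pool.Agent.Helper30.TwoTree
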