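import Pool.Agent.Helper30.TwoTree.Greedy

set_option autoImplicit false
open Classical Finset

namespace Pool.Agent.Helper30.TwoTree

set_option linter.unusedSectionVars false

variable {X : Type} [Fintype X]

/-- dyadic weights -/
def wt (d : ℕ → ℕ) (j : ℕ) : ℕ := ∑ l ∈ range j, 2 ^ (l + 1) * d (2 ^ l)

theorem wt_le (d : ℕ → ℕ) (hd : Antitone d) (j : ℕ) :
    wt d (j + 1) ≤ 4 * ∑ t ∈ range (2 ^ j + 1), d t := by
  induction j with
  | zero =>
    simp only [wt, pow_zero, Finset.sum_range_succ, Finset.range_zero, Finset.sum_empty,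
      Finset.range_one]
    omega
  | succ j ih =>
    have h1 : wt d (j + 1 + 1) = wt d (j + 1) + 2 ^ (j + 2) * d (2 ^ (j + 1)) := by
      simp only [wt]
      rw [Finset.sum_range_succ]
    have h2 : ∑ t ∈ range (2 ^ (j + 1) + 1), d t =
        ∑ t ∈ range (2 ^ j + 1), d t + ∑ t ∈ range (2 ^ j), d (2 ^ j + 1 + t) := by
      rw [← Finset.sum_range_add]
      congr 2
      ring
    have h3 : 2 ^ j * d (2 ^ (j + 1)) ≤ ∑ t ∈ range (2 ^ j), d (2 ^ j + 1 + t) := by
      have h4 : ∑ t ∈ range (2 ^ j), d (2 ^ (j + 1)) ≤ ∑ t ∈ range (2 ^ j), d (2 ^ j + 1 + t) := by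
        refine Finset.sum_le_sum fun t ht => hd ?_
        rw [Finset.mem_range] at ht
        rw [pow_succ]
        omega
      rw [Finset.sum_const, Finset.card_range, smul_eq_mul] at h4
      exact h4
    rw [h1, h2, pow_add]
    have h5 : 2 ^ j * 2 ^ 2 * d (2 ^ (j + 1)) = 4 * (2 ^ j * d (2 ^ (j + 1))) := by ring
    rw [h5]
    omega

theorem wt_bound (d : ℕ → ℕ) (hd : Antitone d) (m : ℕ) (hm : ∀ n, ∑ t ∈ range n, d t ≤ 2 * m)
    (j : ℕ) : wt d j ≤ 8 * m := by
  cases j with
  | zero => simp [wt]
  | succ j =>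
    have := wt_le d hd j
    have := hm (2 ^ j + 1)
    omega

/-- independent sets host everything -/
theorem good_of_indep {W : Type} (H : SimpleGraph W) (r : W → ℕ)
    (hr : Function.Injective r) (Γ : SimpleGraph X) (S I : Finset X) (hIS : I ⊆ S)
    (hI : ∀ a ∈ I, ∀ b ∈ I, ¬ Γ.Adj a b) (t : ℕ) (ht : t ≤ I.card) (ht0 : 0 < t) :
    ∃ g, Good H r Γ S t g := by
  have h0 : 0 < I.card := lt_of_lt_of_le ht0 ht
  set e := I.equivFin with he
  set g : W → X := fun a => if h : r a < t then ((e.symm ⟨r a, lt_of_lt_of_le h ht⟩ : I) : X)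
    else ((e.symm ⟨0, h0⟩ : I) : X) with hg
  have hgI : ∀ a, g a ∈ I := by
    intro a
    simp only [hg]
    split_ifs
    · exact (e.symm _).2
    · exact (e.symm _).2
  refine ⟨g, fun a _ => hIS (hgI a), ?_, fun a b _ _ _ => hI _ (hgI a) _ (hgI b)⟩
  intro a b ha hb hab
  simp only [hg, dif_pos ha, dif_pos hb] at hab
  have h1 := e.symm.injective (Subtype.ext hab)
  rw [Fin.mk.injEq] at h1
  exact hr h1

theorem main_induction {W : Type} [Fintype W] (H : SimpleGraph W) (r : W → ℕ)
    (hr : Function.Injective r) (d : ℕ → ℕ) (hd : Antitone d)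
    (hdr : ∀ w, (univ.filter (fun a => H.Adj w a)).card = d (r w))
    (m : ℕ) (hm0 : 0 < m) (hm : ∀ n, ∑ t ∈ range n, d t ≤ 2 * m)
    (hW : Fintype.card W ≤ 2 * m) (hiso : ∀ w : W, ∃ w', H.Adj w w')
    (n : ℕ) (Γ : SimpleGraph X) (hΓ : Sparse n Γ) (j : ℕ) :
    ∀ S : Finset X, 64 * (3 * n + 1 : ℝ) * m + (3 * n + 1 : ℝ) / (4 * m) * (wt d j : ℝ) ^ 2 ≤ S.card →
      ∃ g, Good H r Γ S (2 ^ j) g := by
  have hm0' : (0 : ℝ) < m := by exact_mod_cast hm0
  have hm1' : (1 : ℝ) ≤ m := by exact_mod_cast hm0
  have hK : (1 : ℝ) ≤ 3 * n + 1 := by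
    have : (0 : ℝ) ≤ n := Nat.cast_nonneg n
    linarith
  induction j with
  | zero =>
    intro S hS
    have hSpos : (0 : ℝ) < S.card := by
      refine lt_of_lt_of_le ?_ hS
      positivity
    have hSpos' : 0 < S.card := by exact_mod_cast hSpos
    obtain ⟨x, hx⟩ := Finset.card_pos.1 hSpos'
    refine ⟨fun _ => x, fun _ _ => hx, ?_, ?_⟩
    · intro a b ha hb _
      rw [pow_zero] at ha hb
      exact hr (by omega)
    · intro a b ha hb hab
      rw [pow_zero] at ha hb
      have : a = b := hr (by omega)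
      rw [this] at hab
      exact absurd hab (H.loopless.irrefl _)
  | succ j ih =>
    intro S hS
    have hwt : wt d (j + 1) = wt d j + 2 ^ (j + 1) * d (2 ^ j) := by
      simp only [wt]; rw [Finset.sum_range_succ]
    by_cases hind : ∃ I ⊆ S, (∀ a ∈ I, ∀ b ∈ I, ¬ Γ.Adj a b) ∧ 2 ^ (j + 1) ≤ I.card
    · obtain ⟨I, hIS, hI, hc⟩ := hind
      exact good_of_indep H r hr Γ S I hIS hI _ hc (by positivity)
    · push Not at hind
      by_cases hD0 : d (2 ^ j) = 0
      · -- no vertex has rank `≥ 2^j`
        have hno : ∀ w, r w < 2 ^ j := by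
          intro w
          by_contra hcon
          push Not at hcon
          have h1 := hd hcon
          rw [hD0, ← hdr w] at h1
          obtain ⟨w', hw'⟩ := hiso w
          have h2 : 0 < (univ.filter (fun a => H.Adj w a)).card :=
            Finset.card_pos.2 ⟨w', by simp [hw']⟩
          omega
        obtain ⟨g, g1, g2, g3⟩ := ih S (by
          refine le_trans ?_ hS
          have : (wt d j : ℝ) ^ 2 ≤ (wt d (j + 1) : ℝ) ^ 2 := by
            apply pow_le_pow_left₀ (by positivity)
            rw [hwt]; push_cast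
            have : (0 : ℝ) ≤ 2 ^ (j + 1) * (d (2 ^ j) : ℝ) := by positivity
            linarith
          have h3 : (0 : ℝ) ≤ (3 * n + 1 : ℝ) / (4 * m) := by positivity
          nlinarith [mul_le_mul_of_nonneg_left this h3])
        exact ⟨g, fun a _ => g1 a (hno a), fun a b _ _ => g2 a b (hno a) (hno b),
          fun a b _ _ => g3 a b (hno a) (hno b)⟩
      · have hDpos : (1 : ℝ) ≤ d (2 ^ j) := by exact_mod_cast Nat.one_le_iff_ne_zero.2 hD0
        set D : ℕ := d (2 ^ j) with hDdef
        set x : ℝ := 2 ^ (j + 1) * (D : ℝ) with hx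
        set s : ℝ := ((S.card : ℕ) : ℝ) with hs
        set K : ℝ := 3 * n + 1 with hKdef
        set T : ℝ := s / (4 * D) with hT
        have hspos : 64 * K * m ≤ s := by
          refine le_trans ?_ hS
          have : (0 : ℝ) ≤ K / (4 * m) * (wt d (j + 1) : ℝ) ^ 2 := by positivity
          linarith
        have hs0 : 0 < s := lt_of_lt_of_le (by positivity) hspos
        have hT0 : 0 ≤ T := by positivity
        have hx8 : x ≤ 8 * m := by
          have h1 := wt_bound d hd m hm (j + 1)
          rw [hwt] at h1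
          have h2 : 2 ^ (j + 1) * D ≤ 8 * m := by omega
          rw [hx]
          exact_mod_cast h2
        have hx0 : 0 ≤ x := by positivity
        -- remove the vertices of large degree
        set B : Finset X := S.filter (fun u => T < (nb Γ S u).card) with hB
        have hBc := few_large n Γ hΓ S (2 ^ (j + 1)) hind T hT0
        rw [← hB, ← hs, ← hKdef] at hBc
        have hBle : (B.card : ℝ) ≤ K * x ^ 2 / (4 * m) := by
          have h1 : (B.card : ℝ) * s ≤ 16 * K ^ 2 * x ^ 2 := by
            have h2 : (B.card : ℝ) * T ^ 2 * (16 * (D : ℝ) ^ 2) = (B.card : ℝ) * s * s := by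
              rw [hT]; field_simp; ring
            have h3 : (B.card : ℝ) * T ^ 2 * (16 * (D : ℝ) ^ 2) ≤
                (K * (2 ^ (j + 1) : ℕ)) ^ 2 * s * (16 * (D : ℝ) ^ 2) :=
              mul_le_mul_of_nonneg_right hBc (by positivity)
            rw [h2] at h3
            have h4 : (K * (2 ^ (j + 1) : ℕ)) ^ 2 * s * (16 * (D : ℝ) ^ 2) =
                16 * K ^ 2 * x ^ 2 * s := by
              rw [hx]; push_cast; ring
            rw [h4] at h3
            exact le_of_mul_le_mul_right h3 hs0
          rw [le_div_iff₀ (by positivity)]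
          have h5 : (B.card : ℝ) * (64 * K * m) ≤ 16 * K ^ 2 * x ^ 2 :=
            (mul_le_mul_of_nonneg_left hspos (by positivity)).trans h1
          have h6 : (16 * K) * ((B.card : ℝ) * (4 * m)) ≤ (16 * K) * (K * x ^ 2) := by
            nlinarith [h5]
          exact le_of_mul_le_mul_left h6 (by positivity)
        have hB16 : (B.card : ℝ) ≤ 16 * K * m := by
          refine hBle.trans ?_
          rw [div_le_iff₀ (by positivity)]
          have : x ^ 2 ≤ (8 * m) ^ 2 := pow_le_pow_left₀ hx0 hx8 2
          nlinarith [mul_le_mul_of_nonneg_left this (by positivity : (0 : ℝ) ≤ K)]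
        have hSB : ((S \ B).card : ℝ) = s - B.card := by
          rw [Finset.card_sdiff_of_subset (Finset.filter_subset _ _), Nat.cast_sub
            (Finset.card_le_card (Finset.filter_subset _ _))]
        obtain ⟨g, hg⟩ := ih (S \ B) (by
          rw [hSB]
          have h1 : K / (4 * m) * (wt d (j + 1) : ℝ) ^ 2 ≥
              K / (4 * m) * (wt d j : ℝ) ^ 2 + K * x ^ 2 / (4 * m) := by
            have h2 : (wt d (j + 1) : ℝ) = wt d j + x := by
              rw [hwt]; push_cast; rfl
            rw [h2]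
            have h3 : (0 : ℝ) ≤ K / (4 * m) := by positivity
            have h4 : (0 : ℝ) ≤ (wt d j : ℝ) * x := by positivity
            have h5 : K / (4 * m) * ((wt d j : ℝ) + x) ^ 2 = K / (4 * m) * (wt d j : ℝ) ^ 2 +
              K * x ^ 2 / (4 * m) + 2 * (K / (4 * m) * ((wt d j : ℝ) * x)) := by ring
            rw [h5]
            have := mul_nonneg h3 h4
            linarith
          linarith)
        obtain ⟨g', g1, g2, g3⟩ := extend H r hr Γ (S \ B) D T hT0 (by
            intro u hu
            rw [Finset.mem_sdiff, hB, Finset.mem_filter, not_and, not_lt] at hu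
            refine le_trans ?_ (hu.2 hu.1)
            exact_mod_cast Finset.card_le_card (Finset.filter_subset_filter _ Finset.sdiff_subset))
          (by
            rw [hSB]
            have h1 : (D : ℝ) * T = s / 4 := by
              rw [hT]; field_simp
            rw [h1]
            have h2 : (Fintype.card W : ℝ) ≤ 2 * m := by exact_mod_cast hW
            nlinarith [mul_le_mul_of_nonneg_right hK hm0'.le]) (2 ^ j)
          (by
            intro w hw
            rw [hdr w]
            exact hd hw) (2 ^ j) g hg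
        have h2j : 2 ^ (j + 1) = 2 ^ j + 2 ^ j := by rw [pow_succ]; ring
        rw [h2j]
        exact ⟨g', fun a ha => Finset.sdiff_subset (g1 a ha), g2, g3⟩

end Pool.Agent.Helper30.TwoTree
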