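import Pool.Agent.Helper30.TwoTree.Induction
import Pool.Agent.Helper30.TwoTree.Embed
import Pool.Agent.Helper30.TwoTree.Defs

set_option autoImplicit false
open Classical Finset

namespace Pool.Agent.Helper30.TwoTree

set_option linter.unusedSectionVars false

/-- ranking of the vertices of `H` by decreasing degree -/
theorem exists_rank {W : Type} [Fintype W] (δ : W → ℕ) :
    ∃ (r : W → ℕ) (d : ℕ → ℕ), Function.Injective r ∧ (∀ w, r w < Fintype.card W) ∧
      Antitone d ∧ (∀ w, δ w = d (r w)) ∧ ∀ n, ∑ t ∈ range n, d t ≤ ∑ w, δ w := by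
  set M := Fintype.card W with hM
  set e : W ≃ Fin M := Fintype.equivFin W with he
  set f : Fin M → ℕᵒᵈ := fun i => OrderDual.toDual (δ (e.symm i)) with hf
  set σ : Equiv.Perm (Fin M) := Tuple.sort f with hσ
  have hmono : Monotone (f ∘ σ) := Tuple.monotone_sort f
  set d : ℕ → ℕ := fun t => if h : t < M then δ (e.symm (σ ⟨t, h⟩)) else 0 with hd
  refine ⟨fun w => (σ.symm (e w) : ℕ), d, ?_, ?_, ?_, ?_, ?_⟩
  · intro a b h
    exact e.injective (σ.symm.injective (Fin.ext h))
  · intro w
    exact (σ.symm (e w)).2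
  · intro s t hst
    simp only [hd]
    by_cases ht : t < M
    · have hs : s < M := lt_of_le_of_lt hst ht
      rw [dif_pos ht, dif_pos hs]
      have := hmono (show (⟨s, hs⟩ : Fin M) ≤ ⟨t, ht⟩ from hst)
      exact this
    · rw [dif_neg ht]; exact Nat.zero_le _
  · intro w
    simp only [hd]
    rw [dif_pos (σ.symm (e w)).2]
    simp
  · intro n
    have h1 : ∑ w, δ w = ∑ t ∈ range M, d t := by
      rw [Finset.sum_range]
      rw [← Equiv.sum_comp e.symm δ, ← Equiv.sum_comp σ]
      refine Finset.sum_congr rfl fun i _ => ?_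
      simp only [hd]
      rw [dif_pos i.2]
    rw [h1]
    have h2 : ∑ t ∈ range n, d t = ∑ t ∈ (range n).filter (fun t => t < M), d t := by
      rw [Finset.sum_filter]
      refine Finset.sum_congr rfl fun t _ => ?_
      by_cases ht : t < M
      · rw [if_pos ht]
      · rw [if_neg ht]; simp only [hd]; rw [dif_neg ht]
    rw [h2]
    refine Finset.sum_le_sum_of_subset fun t ht => ?_
    rw [Finset.mem_filter] at ht
    exact Finset.mem_range.2 ht.2

theorem main (V : Type) [Fintype V] (G : SimpleGraph V) (hG : IsPartialTwoTree G)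
    (W : Type) [Fintype W] (H : SimpleGraph W) (hiso : ∀ w : W, ∃ w' : W, H.Adj w w')
    (N : ℕ) (hN : 320 * Fintype.card V * H.edgeSet.ncard ≤ N) (F : SimpleGraph (Fin N)) :
    (∃ f : V → Fin N, Function.Injective f ∧ ∀ a b : V, G.Adj a b → F.Adj (f a) (f b)) ∨
    (∃ g : W → Fin N, Function.Injective g ∧ ∀ a b : W, H.Adj a b → Fᶜ.Adj (g a) (g b)) := by
  obtain ⟨T, r, hr, hGT, hT⟩ := hG
  rcases isEmpty_or_nonempty W with hWe | hWne
  · right
    exact ⟨fun a => hWe.elim a, fun a => hWe.elim a, fun a => hWe.elim a⟩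
  rcases isEmpty_or_nonempty V with hVe | hVne
  · left
    exact ⟨fun a => hVe.elim a, fun a => hVe.elim a, fun a => hVe.elim a⟩
  have hn1 : 1 ≤ Fintype.card V := Fintype.card_pos
  by_cases hsp : Sparse (Fintype.card V) F
  · right
    set m := H.edgeSet.ncard with hm
    set δ : W → ℕ := fun w => (univ.filter (fun a => H.Adj w a)).card with hδ
    have hsum : ∑ w, δ w = 2 * m := by
      have h1 := H.sum_degrees_eq_twice_card_edges
      have h2 : ∀ w, H.degree w = δ w := by
        intro w
        rw [← SimpleGraph.card_neighborFinset_eq_degree, hδ]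
        congr 1
        ext a
        simp
      rw [Finset.sum_congr rfl fun w _ => h2 w] at h1
      rw [h1, hm, ← SimpleGraph.coe_edgeFinset, Set.ncard_coe_finset]
    have hδ1 : ∀ w, 1 ≤ δ w := by
      intro w
      obtain ⟨w', hw'⟩ := hiso w
      exact Finset.card_pos.2 ⟨w', by simp [hw']⟩
    have hWm : Fintype.card W ≤ 2 * m := by
      rw [← hsum, ← Finset.card_univ, Finset.card_eq_sum_ones]
      exact Finset.sum_le_sum fun w _ => hδ1 w
    have hm0 : 0 < m := by
      have : 0 < Fintype.card W := Fintype.card_pos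
      omega
    obtain ⟨ρ, d, hρ, hρM, hd, hdr, hdsum⟩ := exists_rank δ
    rw [hsum] at hdsum
    obtain ⟨g, g1, g2, g3⟩ := main_induction H ρ hρ d hd hdr m hm0 hdsum hWm hiso
      (Fintype.card V) F hsp (Fintype.card W) (univ : Finset (Fin N)) (by
        rw [Finset.card_univ, Fintype.card_fin]
        have hw : (wt d (Fintype.card W) : ℝ) ≤ 8 * m := by
          exact_mod_cast wt_bound d hd m hdsum (Fintype.card W)
        have hw2 : (wt d (Fintype.card W) : ℝ) ^ 2 ≤ (8 * m) ^ 2 :=
          pow_le_pow_left₀ (by positivity) hw 2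
        have hm0' : (0 : ℝ) < m := by exact_mod_cast hm0
        have hN' : (320 * Fintype.card V * m : ℝ) ≤ N := by exact_mod_cast hN
        have hn1' : (1 : ℝ) ≤ Fintype.card V := by exact_mod_cast hn1
        have h1 : (3 * (Fintype.card V : ℝ) + 1) / (4 * m) * (wt d (Fintype.card W) : ℝ) ^ 2 ≤
            16 * (3 * (Fintype.card V : ℝ) + 1) * m := by
          calc (3 * (Fintype.card V : ℝ) + 1) / (4 * m) * (wt d (Fintype.card W) : ℝ) ^ 2
              ≤ (3 * (Fintype.card V : ℝ) + 1) / (4 * m) * (8 * m) ^ 2 :=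
                mul_le_mul_of_nonneg_left hw2 (by positivity)
            _ = 16 * (3 * (Fintype.card V : ℝ) + 1) * m := by field_simp; ring
        nlinarith [mul_le_mul_of_nonneg_right hn1' hm0'.le])
    have hlt : ∀ w, ρ w < 2 ^ Fintype.card W := fun w => (hρM w).trans Nat.lt_two_pow_self
    refine ⟨g, fun a b hab => g2 a b (hlt a) (hlt b) hab, fun a b hab => ?_⟩
    rw [SimpleGraph.compl_adj]
    refine ⟨fun h => hab.ne (g2 a b (hlt a) (hlt b) h), g3 a b (hlt a) (hlt b) hab⟩
  · left
    simp only [Sparse] at hsp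
    push Not at hsp
    obtain ⟨Γ', hle, hne, hall⟩ := hsp
    -- all ranks are bounded
    obtain ⟨t, ht⟩ : ∃ t, ∀ v : V, r v < t := by
      refine ⟨(univ.sup r) + 1, fun v => Nat.lt_succ_of_le (Finset.le_sup (f := r) (Finset.mem_univ v))⟩
    obtain ⟨f, f1, _, f3⟩ := embed_step T r hr hT Γ' hne (fun x y hxy => (hall x y hxy).le) t
    exact ⟨f, fun a b h => f1 a b (ht a) (ht b) h, fun a b hab => hle (f3 a b (ht a) (ht b) (hGT hab))⟩

end Pool.Agent.Helper30.TwoTree
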