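import Mathlib

set_option autoImplicit false
open Classical Finset

namespace Pool.Agent.Helper30.TwoTree

variable {X : Type} [Fintype X]

/-- ordered triangles -/
noncomputable def tri (Γ : SimpleGraph X) : Finset (X × X × X) :=
  univ.filter (fun p => Γ.Adj p.1 p.2.1 ∧ Γ.Adj p.1 p.2.2 ∧ Γ.Adj p.2.1 p.2.2)

/-- ordered adjacent pairs -/
noncomputable def prs (Γ : SimpleGraph X) : Finset (X × X) :=
  univ.filter (fun p => Γ.Adj p.1 p.2)

/-- If every subgraph with an edge has an edge in at most `n` triangles, then the
number of triangles is at most `n` times the number of edges. -/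
theorem tri_le (n : ℕ) (k : ℕ) : ∀ Γ : SimpleGraph X, (prs Γ).card ≤ k →
    (∀ Γ' : SimpleGraph X, Γ' ≤ Γ → (∃ x y, Γ'.Adj x y) →
      ∃ x y, Γ'.Adj x y ∧ (univ.filter (fun z => Γ'.Adj x z ∧ Γ'.Adj y z)).card ≤ n) →
    (tri Γ).card ≤ 3 * n * (prs Γ).card := by
  induction k with
  | zero =>
    intro Γ hk _
    have h0 : tri Γ = ∅ := by
      apply Finset.eq_empty_of_forall_notMem
      intro p hp
      have : (p.1, p.2.1) ∈ prs Γ := by
        simp only [tri, prs, mem_filter, mem_univ, true_and] at hp ⊢
        exact hp.1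
      have h1 : 0 < (prs Γ).card := Finset.card_pos.2 ⟨_, this⟩
      omega
    rw [h0]; simp
  | succ k ih =>
    intro Γ hk hsub
    by_cases hne : ∃ x y, Γ.Adj x y
    · obtain ⟨x, y, hxy, hc⟩ := hsub Γ le_rfl hne
      -- delete the edge `xy`
      set Γ' : SimpleGraph X :=
        { Adj := fun a b => Γ.Adj a b ∧ ¬ (a = x ∧ b = y) ∧ ¬ (a = y ∧ b = x)
          symm := ⟨by
            intro a b h
            exact ⟨h.1.symm, fun h' => h.2.2 ⟨h'.2, h'.1⟩, fun h' => h.2.1 ⟨h'.2, h'.1⟩⟩⟩
          loopless := ⟨by
            intro a h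
            exact Γ.loopless.irrefl a h.1⟩ } with hΓ'
      have hle : Γ' ≤ Γ := fun a b h => h.1
      have hprs : (prs Γ').card + 2 ≤ (prs Γ).card := by
        have h1 : prs Γ' ∪ {(x, y), (y, x)} ⊆ prs Γ := by
          intro p hp
          simp only [prs, mem_union, mem_filter, mem_univ, true_and, mem_insert, mem_singleton] at hp ⊢
          rcases hp with hp | hp | hp
          · exact hp.1
          · rw [hp]; exact hxy
          · rw [hp]; exact hxy.symm
        have h2 : Disjoint (prs Γ') {(x, y), (y, x)} := by
          rw [Finset.disjoint_left]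
          intro p hp hp'
          simp only [prs, mem_filter, mem_univ, true_and, mem_insert, mem_singleton] at hp hp'
          rcases hp' with hp' | hp'
          · exact hp.2.1 (by rw [hp']; exact ⟨rfl, rfl⟩)
          · exact hp.2.2 (by rw [hp']; exact ⟨rfl, rfl⟩)
        have h3 := Finset.card_le_card h1
        rw [Finset.card_union_of_disjoint h2, Finset.card_pair (by
          intro h
          have := congrArg Prod.fst h
          exact hxy.ne this)] at h3
        exact h3
      set C : Finset X := univ.filter (fun z => Γ.Adj x z ∧ Γ.Adj y z) with hC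
      have htri : (tri Γ).card ≤ (tri Γ').card + 6 * n := by
        have h1 : tri Γ ⊆ tri Γ' ∪ (C.image (fun z => (x, y, z)) ∪ C.image (fun z => (y, x, z)) ∪
            C.image (fun z => (x, z, y)) ∪ C.image (fun z => (y, z, x)) ∪
            C.image (fun z => (z, x, y)) ∪ C.image (fun z => (z, y, x))) := by
          rintro ⟨a, b, c⟩ hp
          simp only [tri, mem_filter, mem_univ, true_and] at hp
          obtain ⟨hab, hac, hbc⟩ := hp
          by_cases hin : (a, b, c) ∈ tri Γ'
          · exact Finset.mem_union_left _ hin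
          · apply Finset.mem_union_right
            simp only [tri, mem_filter, mem_univ, true_and, hΓ'] at hin
            simp only [mem_union, mem_image, Prod.mk.injEq]
            have key : (a = x ∧ b = y) ∨ (a = y ∧ b = x) ∨ (a = x ∧ c = y) ∨ (a = y ∧ c = x) ∨
                (b = x ∧ c = y) ∨ (b = y ∧ c = x) := by
              by_contra hcon
              apply hin
              push Not at hcon
              obtain ⟨c1, c2, c3, c4, c5, c6⟩ := hcon
              exact ⟨⟨hab, fun h => c1 h.1 h.2, fun h => c2 h.1 h.2⟩,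
                ⟨hac, fun h => c3 h.1 h.2, fun h => c4 h.1 h.2⟩,
                ⟨hbc, fun h => c5 h.1 h.2, fun h => c6 h.1 h.2⟩⟩
            rcases key with ⟨rfl, rfl⟩ | ⟨rfl, rfl⟩ | ⟨rfl, rfl⟩ | ⟨rfl, rfl⟩ | ⟨rfl, rfl⟩ | ⟨rfl, rfl⟩
            · exact Or.inl (Or.inl (Or.inl (Or.inl (Or.inl ⟨c, by simp [hC, hac, hbc], rfl, rfl, rfl⟩))))
            · exact Or.inl (Or.inl (Or.inl (Or.inl (Or.inr ⟨c, by simp [hC, hac, hbc], rfl, rfl, rfl⟩))))
            · exact Or.inl (Or.inl (Or.inl (Or.inr ⟨b, by simp [hC, hab, hbc.symm], rfl, rfl, rfl⟩)))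
            · exact Or.inl (Or.inl (Or.inr ⟨b, by simp [hC, hab, hbc.symm], rfl, rfl, rfl⟩))
            · exact Or.inl (Or.inr ⟨a, by simp [hC, hab.symm, hac.symm], rfl, rfl, rfl⟩)
            · exact Or.inr ⟨a, by simp [hC, hab.symm, hac.symm], rfl, rfl, rfl⟩
        refine (Finset.card_le_card h1).trans ((Finset.card_union_le _ _).trans ?_)
        refine Nat.add_le_add_left ?_ _
        have hi : ∀ g : X → X × X × X, (C.image g).card ≤ n := fun g => Finset.card_image_le.trans hc
        have e1 := Finset.card_union_le (C.image (fun z => (x, y, z)) ∪ C.image (fun z => (y, x, z)) ∪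
            C.image (fun z => (x, z, y)) ∪ C.image (fun z => (y, z, x)) ∪
            C.image (fun z => (z, x, y))) (C.image (fun z => (z, y, x)))
        have e2 := Finset.card_union_le (C.image (fun z => (x, y, z)) ∪ C.image (fun z => (y, x, z)) ∪
            C.image (fun z => (x, z, y)) ∪ C.image (fun z => (y, z, x))) (C.image (fun z => (z, x, y)))
        have e3 := Finset.card_union_le (C.image (fun z => (x, y, z)) ∪ C.image (fun z => (y, x, z)) ∪
            C.image (fun z => (x, z, y))) (C.image (fun z => (y, z, x)))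
        have e4 := Finset.card_union_le (C.image (fun z => (x, y, z)) ∪ C.image (fun z => (y, x, z)))
            (C.image (fun z => (x, z, y)))
        have e5 := Finset.card_union_le (C.image (fun z => (x, y, z))) (C.image (fun z => (y, x, z)))
        have i1 := hi (fun z => (x, y, z))
        have i2 := hi (fun z => (y, x, z))
        have i3 := hi (fun z => (x, z, y))
        have i4 := hi (fun z => (y, z, x))
        have i5 := hi (fun z => (z, x, y))
        have i6 := hi (fun z => (z, y, x))
        omega
      have hih := ih Γ' (by omega) (fun Γ'' h => hsub Γ'' (h.trans hle))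
      calc (tri Γ).card ≤ (tri Γ').card + 6 * n := htri
        _ ≤ 3 * n * (prs Γ').card + 6 * n := by omega
        _ = 3 * n * ((prs Γ').card + 2) := by ring
        _ ≤ 3 * n * (prs Γ).card := Nat.mul_le_mul_left _ hprs
    · push Not at hne
      have h0 : tri Γ = ∅ := by
        apply Finset.eq_empty_of_forall_notMem
        intro p hp
        simp only [tri, mem_filter, mem_univ, true_and] at hp
        exact hne _ _ hp.1
      rw [h0]; simp

/-- Caro–Wei: a set `A` contains an independent set of size at least `∑ 1/(deg_A+1)`. -/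
theorem caro_wei (Γ : SimpleGraph X) (k : ℕ) : ∀ A : Finset X, A.card ≤ k →
    ∃ I ⊆ A, (∀ a ∈ I, ∀ b ∈ I, ¬ Γ.Adj a b) ∧
      (∑ u ∈ A, (1 : ℝ) / ((A.filter (fun w => Γ.Adj u w)).card + 1)) ≤ I.card := by
  induction k with
  | zero =>
    intro A hA
    have : A = ∅ := Finset.card_eq_zero.1 (by omega)
    exact ⟨∅, by simp, by simp, by simp [this]⟩
  | succ k ih =>
    intro A hA
    rcases A.eq_empty_or_nonempty with rfl | hne
    · exact ⟨∅, by simp, by simp, by simp⟩
    obtain ⟨v, hvA, hvmin⟩ := Finset.exists_min_image A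
      (fun u => (A.filter (fun w => Γ.Adj u w)).card) hne
    set B := A.filter (fun w => ¬ Γ.Adj v w ∧ w ≠ v) with hB
    have hBA : B ⊆ A := Finset.filter_subset _ _
    have hvB : v ∉ B := by simp [hB]
    have hBc : B.card ≤ k := by
      have : B.card < A.card := Finset.card_lt_card ⟨hBA, fun h => hvB (h hvA)⟩
      omega
    obtain ⟨I, hIB, hI, hsum⟩ := ih B hBc
    refine ⟨insert v I, ?_, ?_, ?_⟩
    · intro a ha
      rcases Finset.mem_insert.1 ha with rfl | ha
      · exact hvA
      · exact hBA (hIB ha)
    · intro a ha b hb hab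
      rcases Finset.mem_insert.1 ha with ha1 | ha1
      · rcases Finset.mem_insert.1 hb with hb1 | hb1
        · rw [ha1, hb1] at hab
          exact Γ.loopless.irrefl _ hab
        · have := (Finset.mem_filter.1 (hIB hb1)).2.1
          rw [ha1] at hab
          exact this hab
      · rcases Finset.mem_insert.1 hb with hb1 | hb1
        · have := (Finset.mem_filter.1 (hIB ha1)).2.1
          rw [hb1] at hab
          exact this hab.symm
        · exact hI a ha1 b hb1 hab
    · rw [Finset.card_insert_of_notMem (fun h => hvB (hIB h))]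
      set D := A.filter (fun w => Γ.Adj v w) with hD
      have hsplit : A = B ∪ insert v D := by
        ext w
        simp only [hB, hD, mem_union, mem_filter, mem_insert]
        constructor
        · intro hw
          by_cases h1 : w = v
          · exact Or.inr (Or.inl h1)
          · by_cases h2 : Γ.Adj v w
            · exact Or.inr (Or.inr ⟨hw, h2⟩)
            · exact Or.inl ⟨hw, h2, h1⟩
        · rintro (h | rfl | h)
          · exact h.1
          · exact hvA
          · exact h.1
      have hdisj : Disjoint B (insert v D) := by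
        rw [Finset.disjoint_left]
        intro w hw hw'
        simp only [hB, hD, mem_filter, mem_insert] at hw hw'
        rcases hw' with rfl | hw'
        · exact hw.2.2 rfl
        · exact hw.2.1 hw'.2
      have h1 : ∑ u ∈ A, (1 : ℝ) / ((A.filter (fun w => Γ.Adj u w)).card + 1) =
          ∑ u ∈ B, (1 : ℝ) / ((A.filter (fun w => Γ.Adj u w)).card + 1) +
          ∑ u ∈ insert v D, (1 : ℝ) / ((A.filter (fun w => Γ.Adj u w)).card + 1) := by
        conv_lhs => rw [hsplit]
        rw [Finset.sum_union hdisj, ← hsplit]
      have h2 : ∑ u ∈ B, (1 : ℝ) / ((A.filter (fun w => Γ.Adj u w)).card + 1) ≤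
          ∑ u ∈ B, (1 : ℝ) / ((B.filter (fun w => Γ.Adj u w)).card + 1) := by
        refine Finset.sum_le_sum fun u hu => ?_
        apply one_div_le_one_div_of_le (Nat.cast_add_one_pos _)
        have : (B.filter (fun w => Γ.Adj u w)).card ≤ (A.filter (fun w => Γ.Adj u w)).card :=
          Finset.card_le_card (Finset.filter_subset_filter _ hBA)
        have : ((B.filter (fun w => Γ.Adj u w)).card : ℝ) ≤ (A.filter (fun w => Γ.Adj u w)).card := by
          exact_mod_cast this
        linarith
      have h3 : ∑ u ∈ insert v D, (1 : ℝ) / ((A.filter (fun w => Γ.Adj u w)).card + 1) ≤ 1 := by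
        have hDc : (insert v D).card = D.card + 1 := by
          apply Finset.card_insert_of_notMem
          rw [hD, mem_filter]
          exact fun h => Γ.loopless.irrefl _ h.2
        calc ∑ u ∈ insert v D, (1 : ℝ) / ((A.filter (fun w => Γ.Adj u w)).card + 1)
            ≤ ∑ u ∈ insert v D, (1 : ℝ) / (D.card + 1) := by
              refine Finset.sum_le_sum fun u hu => ?_
              apply one_div_le_one_div_of_le (Nat.cast_add_one_pos _)
              have huA : u ∈ A := by rw [hsplit]; exact Finset.mem_union_right _ hu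
              have := hvmin u huA
              have : ((D).card : ℝ) ≤ (A.filter (fun w => Γ.Adj u w)).card := by
                exact_mod_cast this
              linarith
          _ = 1 := by
              rw [Finset.sum_const, hDc, nsmul_eq_mul]
              push_cast
              exact mul_one_div_cancel (Nat.cast_add_one_pos _).ne'
      push_cast
      linarith [h1, h2, h3, hsum]

/-- Turán-type bound: if `A` has no independent set of size `i` then `|A|² ≤ i (e₂(A) + |A|)`. -/
theorem turan_bound (Γ : SimpleGraph X) (A : Finset X) (i : ℕ)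
    (hi : ∀ I ⊆ A, (∀ a ∈ I, ∀ b ∈ I, ¬ Γ.Adj a b) → I.card < i) :
    (A.card : ℝ) ^ 2 ≤ i * ((∑ u ∈ A, ((A.filter (fun w => Γ.Adj u w)).card : ℝ)) + A.card) := by
  obtain ⟨I, hIA, hI, hsum⟩ := caro_wei Γ A.card A le_rfl
  have h1 := hi I hIA hI
  have h2 : (A.card : ℝ) ^ 2 ≤ (∑ u ∈ A, (1 : ℝ) / ((A.filter (fun w => Γ.Adj u w)).card + 1)) *
      ∑ u ∈ A, (((A.filter (fun w => Γ.Adj u w)).card : ℝ) + 1) := by
    have := Finset.sum_sq_le_sum_mul_sum_of_sq_le_mul A
      (r := fun _ => (1 : ℝ)) (f := fun u => (1 : ℝ) / ((A.filter (fun w => Γ.Adj u w)).card + 1))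
      (g := fun u => ((A.filter (fun w => Γ.Adj u w)).card : ℝ) + 1)
      (fun u _ => by positivity) (fun u _ => by positivity)
      (fun u _ => by rw [one_div_mul_cancel (Nat.cast_add_one_pos _).ne']; simp)
    simpa using this
  refine h2.trans ?_
  have h3 : ∑ u ∈ A, (((A.filter (fun w => Γ.Adj u w)).card : ℝ) + 1) =
      (∑ u ∈ A, ((A.filter (fun w => Γ.Adj u w)).card : ℝ)) + A.card := by
    rw [Finset.sum_add_distrib]; simp
  rw [h3]
  apply mul_le_mul_of_nonneg_right
  · have : (I.card : ℝ) ≤ i := by exact_mod_cast h1.le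
    linarith
  · positivity

end Pool.Agent.Helper30.TwoTree
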